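import Pool.Agent.R3.PT8

set_option autoImplicit false

/-!
# MP_703902_co, Q1: an infinite vertex-transitive graph in which all vertices are `0`-positive

The bi-infinite ladder `ℤ □ K₂` is such a graph.

Definitions (in `Pool.Agent.R3.PT2`, `PT4`, `PT5`, `PT8`, namespace `Pool.Agent.R3.PT`):
* `FinPath G o`: the finite paths of `G` starting at `o` (coded by the lists of their vertices in the
  reversed order), `pathTree G o`: the path tree `T(G,o)`, `root G o`: the one-vertex path;
* `adjOp T`: the adjacency operator `(A f)(p) = ∑_{q ∼ p} f(q)` of the locally finite graph `T`,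
  `chi o`: the indicator function of `o`;
* `IsMatchingMeasure G o μ`: `μ` is a probability measure on `ℝ` with bounded support and
  `∫ x^n dμ = (A^n χ_o)(o) = ⟨A^n χ_o, χ_o⟩` for all `n`, where `A` is the adjacency operator of
  the path tree and `o` is its root; there is exactly one such measure for a graph of bounded
  degree (`exists_matchingMeasure`), it is the matching measure `ν_{G,o}`;
* `del G u`: the graph `G - u`;
* `ladder`: the graph `ℤ □ K₂` with the vertices `(k, r)`, `k : ℤ`, `r : Bool`.
-/

open MeasureTheory Set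

namespace Pool.Agent.Results.MP_703902_co.LadderZeroPositive

open Pool.Agent.R3.PT

open Classical in
/-- The matching measure `ν_{G,o}` (the component of `o` only matters, since the paths starting at
`o` stay in this component). -/
noncomputable def matchingMeasure {V : Type*} (G : SimpleGraph V) (o : V) : Measure ℝ :=
  if h : ∃ μ, IsMatchingMeasure G o μ then h.choose else 0

/-- The vertex `u` is `0`-positive: `∑_{v ∼ u} ν_{G-u,v}({0}) > 0`. -/
def ZeroPositive {V : Type*} (G : SimpleGraph V) (u : V) : Prop :=
  0 < ∑ᶠ v : {v : V // G.Adj u v},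
    matchingMeasure (del G u) ⟨v.1, fun h => G.ne_of_adj v.2 (Eq.symm h)⟩ {0}

lemma matchingMeasure_spec {V : Type*} {G : SimpleGraph V} (hG : ∀ v, (G.neighborSet v).Finite)
    {D : ℕ} (hD : ∀ v, (G.neighborSet v).ncard ≤ D) (o : V) :
    IsMatchingMeasure G o (matchingMeasure G o) := by
  obtain ⟨μ, hμ, -⟩ := exists_matchingMeasure hG hD o
  have h : ∃ μ, IsMatchingMeasure G o μ := ⟨μ, hμ⟩
  rw [matchingMeasure, dif_pos h]
  exact h.choose_spec

lemma reach_row (r : Bool) (k : ℤ) : ladder.Reachable (0, r) (k, r) := by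
  induction k using Int.induction_on with
  | zero => exact SimpleGraph.Reachable.refl _
  | succ i ih =>
    refine ih.trans (SimpleGraph.Adj.reachable ?_)
    exact Or.inl ⟨rfl, Or.inl rfl⟩
  | pred i ih =>
    refine ih.trans (SimpleGraph.Adj.reachable ?_)
    exact Or.inl ⟨rfl, Or.inr (by simp)⟩

lemma reach_zero (x : ℤ × Bool) : ladder.Reachable (0, false) x := by
  obtain ⟨k, r⟩ := x
  cases r with
  | false => exact reach_row false k
  | true =>
    have h : ladder.Adj (0, false) (0, true) := Or.inr ⟨rfl, by simp⟩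
    exact h.reachable.trans (reach_row true k)

lemma ladder_connected : ladder.Connected where
  preconnected x y := (reach_zero x).symm.trans (reach_zero y)
  nonempty := ⟨(0, false)⟩

/-- the automorphisms of the ladder -/
def aut (c : ℤ) (s : Bool) : ladder ≃g ladder where
  toFun x := (x.1 + c, xor x.2 s)
  invFun x := (x.1 - c, xor x.2 s)
  left_inv x := by simp
  right_inv x := by simp
  map_rel_iff' := by
    rintro ⟨a, r⟩ ⟨b, t⟩
    simp only [ladder, Equiv.coe_fn_mk]
    cases r <;> cases t <;> cases s <;> simp <;> omega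

lemma ladder_transitive (x y : ℤ × Bool) : ∃ φ : ladder ≃g ladder, φ x = y := by
  refine ⟨aut (y.1 - x.1) (xor x.2 y.2), ?_⟩
  change (x.1 + (y.1 - x.1), xor x.2 (xor x.2 y.2)) = y
  ext
  · simp
  · simp

lemma ladder_zeroPositive (u : ℤ × Bool) : ZeroPositive ladder u := by
  have hadj : ladder.Adj u (u.1, !u.2) := Or.inr ⟨rfl, by simp⟩
  have hfin : Finite {v : ℤ × Bool // ladder.Adj u v} := (ladder_nbr_finite u).to_subtype
  rw [ZeroPositive]
  set F : {v : ℤ × Bool // ladder.Adj u v} → ENNReal := fun v =>
    matchingMeasure (del ladder u) ⟨v.1, fun h => ladder.ne_of_adj v.2 (Eq.symm h)⟩ {0} with hF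
  have h1 : 0 < F ⟨(u.1, !u.2), hadj⟩ := by
    exact ladder_atom u ⟨(u.1, !u.2), fun h => ladder.ne_of_adj hadj (Eq.symm h)⟩ rfl _
      (matchingMeasure_spec (del_nbr_finite ladder_nbr_finite u)
      (del_nbr_ncard ladder_nbr_finite ladder_nbr_ncard u) _)
  have h2 : F ⟨(u.1, !u.2), hadj⟩ ≤ ∑ᶠ v, F v := by
    have := Fintype.ofFinite {v : ℤ × Bool // ladder.Adj u v}
    rw [finsum_eq_sum_of_fintype]
    exact Finset.single_le_sum (f := F) (fun _ _ => zero_le) (Finset.mem_univ _)
  exact lt_of_lt_of_le h1 h2

/-- There is an infinite connected vertex-transitive graph (of maximum degree at most `3`) in which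
every vertex is `0`-positive. All the matching measures involved exist and are unique. -/
theorem result : ∃ (V : Type) (G : SimpleGraph V), Countable V ∧ Infinite V ∧ G.Connected ∧
    (∀ v, (G.neighborSet v).Finite ∧ (G.neighborSet v).ncard ≤ 3) ∧
    (∀ x y : V, ∃ φ : G ≃g G, φ x = y) ∧
    (∀ (u : V) (o : ({u}ᶜ : Set V)), (∃! μ, IsMatchingMeasure (del G u) o μ) ∧
      IsMatchingMeasure (del G u) o (matchingMeasure (del G u) o)) ∧
    ∀ u : V, ZeroPositive G u :=
  ⟨ℤ × Bool, ladder, inferInstance, inferInstance, ladder_connected,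
    fun v => ⟨ladder_nbr_finite v, ladder_nbr_ncard v⟩, ladder_transitive,
    fun u o => ⟨exists_matchingMeasure (del_nbr_finite ladder_nbr_finite u)
      (del_nbr_ncard ladder_nbr_finite ladder_nbr_ncard u) o,
      matchingMeasure_spec (del_nbr_finite ladder_nbr_finite u)
      (del_nbr_ncard ladder_nbr_finite ladder_nbr_ncard u) o⟩, ladder_zeroPositive⟩

end Pool.Agent.Results.MP_703902_co.LadderZeroPositive
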